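import Pool.Agent.H17T.Bounds

/-!
# MP_1a6bb7_co: pairwise intersecting, 4-intersecting bi-infinite x-monotone curves with
superlinearly many tangencies
-/

namespace Pool.Agent.Results.MP_1a6bb7_co.SuperlinearTangencies

open Pool.Agent.H17T

/-- A family of `n` bi-infinite `x`-monotone curves (the graphs of continuous functions
`f i : ℝ → ℝ`): any two share at least one point, finitely many points, and at most `k` points
(pairwise intersecting and `k`-intersecting), and no point lies on three curves. -/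
structure Family (k : ℕ) {n : ℕ} (f : Fin n → ℝ → ℝ) : Prop where
  cont : ∀ i, Continuous (f i)
  finite : ∀ i j, i ≠ j → {x | f i x = f j x}.Finite
  meet : ∀ i j, i ≠ j → {x | f i x = f j x}.Nonempty
  card_le : ∀ i j, i ≠ j → {x | f i x = f j x}.ncard ≤ k
  triple : ∀ i j l, i ≠ j → j ≠ l → i ≠ l → ∀ x, ¬ (f i x = f j x ∧ f j x = f l x)

/-- Two curves are tangent: they share exactly one point and do not cross there. -/
def Tangent (u v : ℝ → ℝ) : Prop :=
  ∃ x₀, u x₀ = v x₀ ∧ ((∀ x, x ≠ x₀ → u x < v x) ∨ (∀ x, x ≠ x₀ → v x < u x))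

/-- The number of unordered tangent pairs. -/
noncomputable def tangencies {n : ℕ} (f : Fin n → ℝ → ℝ) : ℕ :=
  {p : Fin n × Fin n | p.1 < p.2 ∧ Tangent (f p.1) (f p.2)}.ncard

/-- the index type: words and lines of the Hamming cube `[s+1]^(s+1)` -/
abbrev Idx (s : ℕ) : Type :=
  (Fin (s + 1) → Fin (s + 1)) ⊕ (Fin (s + 1) × (Fin s → Fin (s + 1)))

/-- digits: a line in direction `i` is a word with the letter `s+1` at `i` -/
def base (s : ℕ) : Idx s → Fin (s + 1) → ℕ
  | Sum.inl w => fun j => (w j : ℕ)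
  | Sum.inr (i, v) => Fin.insertNth (α := fun _ => ℕ) i (s + 1) (fun t => (v t : ℕ))

def W (s : ℕ) (c : Idx s) (j : ℕ) : ℕ := if h : j < s + 1 then base s c ⟨j, h⟩ else 0

theorem base_inr_same (s : ℕ) (i : Fin (s + 1)) (v : Fin s → Fin (s + 1)) :
    base s (Sum.inr (i, v)) i = s + 1 := by
  unfold base; exact Fin.insertNth_apply_same _ _ _

theorem base_inr_succAbove (s : ℕ) (i : Fin (s + 1)) (v : Fin s → Fin (s + 1)) (t : Fin s) :
    base s (Sum.inr (i, v)) (i.succAbove t) = (v t : ℕ) := by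
  unfold base; exact Fin.insertNth_apply_succAbove _ _ _ _

theorem base_inr_eq (s : ℕ) (i j : Fin (s + 1)) (v : Fin s → Fin (s + 1))
    (h : base s (Sum.inr (i, v)) j = s + 1) : j = i := by
  rcases Fin.eq_self_or_eq_succAbove i j with rfl | ⟨t, rfl⟩
  · rfl
  · rw [base_inr_succAbove] at h
    have := (v t).isLt
    omega

theorem base_lt (s : ℕ) (c : Idx s) (j : Fin (s + 1)) : base s c j < s + 1 + 1 := by
  rcases c with w | ⟨i, v⟩
  · have := (w j).isLt
    show (w j : ℕ) < _
    omega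
  · rcases Fin.eq_self_or_eq_succAbove i j with rfl | ⟨t, rfl⟩
    · rw [base_inr_same]; omega
    · rw [base_inr_succAbove]
      have := (v t).isLt
      omega

theorem base_injective (s : ℕ) : Function.Injective (base s) := by
  intro c d h
  rcases c with w | ⟨i, v⟩ <;> rcases d with w' | ⟨i', v'⟩
  · congr 1
    funext j
    have := congrFun h j
    exact Fin.ext this
  · exfalso
    have h1 := congrFun h i'
    rw [base_inr_same] at h1
    have h2 := (w i').isLt
    have h3 : (w i' : ℕ) = s + 1 := h1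
    omega
  · exfalso
    have h1 := congrFun h i
    rw [base_inr_same] at h1
    have h2 := (w' i).isLt
    have h3 : s + 1 = (w' i : ℕ) := h1
    omega
  · have h1 := congrFun h i
    rw [base_inr_same] at h1
    have h2 := base_inr_eq s i' i v' h1.symm
    subst h2
    congr 2
    funext t
    have h3 := congrFun h (i.succAbove t)
    rw [base_inr_succAbove, base_inr_succAbove] at h3
    exact Fin.ext h3

theorem words (s : ℕ) : Words (s + 1) (s + 1) (W s) where
  pos := by omega
  dig := by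
    intro c j
    unfold W
    split_ifs with h
    · exact base_lt s c _
    · omega
  inj := by
    intro c d h
    apply base_injective s
    funext j
    have := h j j.isLt
    unfold W at this
    rw [dif_pos j.isLt, dif_pos j.isLt] at this
    exact this
  one := by
    intro c i j hi hj hci hcj
    unfold W at hci hcj
    rw [dif_pos hi] at hci
    rw [dif_pos hj] at hcj
    rcases c with w | ⟨i', v⟩
    · exfalso
      have h2 := (w ⟨i, hi⟩).isLt
      have h3 : (w ⟨i, hi⟩ : ℕ) = s + 1 := hci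
      omega
    · have h1 := base_inr_eq s i' _ v hci
      have h2 := base_inr_eq s i' _ v hcj
      have h3 := h1.trans h2.symm
      exact congrArg Fin.val h3

/-- the family, indexed by words and lines -/
theorem exists_curves (s : ℕ) : ∃ f : Idx s → ℝ → ℝ, (∀ c, Continuous (f c)) ∧
    (∀ c d, c ≠ d → {x | f c x = f d x}.Finite ∧ {x | f c x = f d x}.Nonempty ∧
      {x | f c x = f d x}.ncard ≤ 4) ∧
    (∀ c d e, c ≠ d → d ≠ e → c ≠ e → ∀ x, ¬ (f c x = f d x ∧ f d x = f e x)) ∧
    (∀ (w : Fin (s + 1) → Fin (s + 1)) (i : Fin (s + 1)),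
      Tangent (f (Sum.inl w)) (f (Sum.inr (i, fun t => w (i.succAbove t))))) := by
  obtain ⟨f, L, hL, hc, h0, hLq, hN, h3⟩ := Arr.total (words s)
  refine ⟨f, hc, ?_, h3, ?_⟩
  · intro c d hcd
    obtain ⟨hf, hn⟩ := hN c d hcd
    refine ⟨hf, ?_, ?_⟩
    · rw [← Set.ncard_pos hf, hn]
      exact NN_pos (words s) c d hcd
    · rw [hn]; exact NN_le (words s) c d hcd
  · intro w i
    have hne : (Sum.inl w : Idx s) ≠ Sum.inr (i, fun t => w (i.succAbove t)) := by simp
    obtain ⟨h1, h2, h4⟩ := NN_tangent (words s) (i : ℕ) i.isLt (Sum.inl w)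
      (Sum.inr (i, fun t => w (i.succAbove t)))
      (by
        intro j hj hji
        unfold W
        rw [dif_pos hj, dif_pos hj]
        rcases Fin.eq_self_or_eq_succAbove i ⟨j, hj⟩ with h | ⟨t, h⟩
        · exfalso; apply hji; rw [← h]
        · rw [h, base_inr_succAbove]; rfl)
      (by
        unfold W
        rw [dif_pos i.isLt]
        exact (w i).isLt)
      (by
        unfold W
        rw [dif_pos i.isLt]
        exact base_inr_same s i _)
    obtain ⟨x₀, hx₀, hx⟩ := touch_of_ncard (hc (Sum.inl w))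
      (hc (Sum.inr (i, fun t => w (i.succAbove t)))) L
      (fun x hx => by rw [h0 _ x hx, h0 _ x hx]; exact h2)
      (fun x hx => by rw [hLq _ x hx, hLq _ x hx]; exact h4)
      (by rw [(hN _ _ hne).2, h1])
    exact ⟨x₀, hx₀, Or.inl hx⟩

theorem main (m : ℕ) (hm : 1 ≤ m) : ∃ f : Fin (2 * m ^ m) → ℝ → ℝ,
    Family 4 f ∧ m ^ (m + 1) ≤ tangencies f := by
  obtain ⟨s, rfl⟩ : ∃ s, m = s + 1 := ⟨m - 1, by omega⟩
  obtain ⟨f, hc, h2, h3, ht⟩ := exists_curves s
  have cA : Fintype.card (Fin (s + 1) → Fin (s + 1)) = (s + 1) ^ (s + 1) := by simp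
  have cB : Fintype.card (Fin (s + 1) × (Fin s → Fin (s + 1))) = (s + 1) ^ (s + 1) := by
    simp [pow_succ, mul_comm]
  let eA := Fintype.equivFinOfCardEq cA
  let eB := Fintype.equivFinOfCardEq cB
  let e : Idx s ≃ Fin (2 * (s + 1) ^ (s + 1)) :=
    ((Equiv.sumCongr eA eB).trans finSumFinEquiv).trans
      (finCongr (two_mul ((s + 1) ^ (s + 1))).symm)
  have hlt : ∀ w v, e (Sum.inl w) < e (Sum.inr v) := by
    intro w v
    rw [Fin.lt_def]
    have h1 : (e (Sum.inl w) : ℕ) = (eA w : ℕ) := by simp [e]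
    have h2 : (e (Sum.inr v) : ℕ) = (s + 1) ^ (s + 1) + (eB v : ℕ) := by
      simp [e, Nat.add_comm]
    rw [h1, h2]
    have := (eA w).isLt
    omega
  refine ⟨fun i => f (e.symm i), ⟨fun i => hc _, ?_, ?_, ?_, ?_⟩, ?_⟩
  · intro i j hij
    exact (h2 _ _ (e.symm.injective.ne hij)).1
  · intro i j hij
    exact (h2 _ _ (e.symm.injective.ne hij)).2.1
  · intro i j hij
    exact (h2 _ _ (e.symm.injective.ne hij)).2.2
  · intro i j l hij hjl hil x
    exact h3 _ _ _ (e.symm.injective.ne hij) (e.symm.injective.ne hjl) (e.symm.injective.ne hil) x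
  · unfold tangencies
    let Φ : (Fin (s + 1) → Fin (s + 1)) × Fin (s + 1) →
        Fin (2 * (s + 1) ^ (s + 1)) × Fin (2 * (s + 1) ^ (s + 1)) :=
      fun z => (e (Sum.inl z.1), e (Sum.inr (z.2, fun t => z.1 (z.2.succAbove t))))
    have hΦ : Function.Injective Φ := by
      rintro ⟨w, i⟩ ⟨w', i'⟩ h
      simp only [Φ, Prod.mk.injEq] at h
      obtain ⟨h1, h2⟩ := h
      have h1' := e.injective h1
      have h2' := e.injective h2
      simp only [Sum.inl.injEq] at h1'
      simp only [Sum.inr.injEq, Prod.mk.injEq] at h2'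
      rw [h1', h2'.1]
    have hsub : Φ '' Set.univ ⊆ {p : Fin (2 * (s + 1) ^ (s + 1)) × Fin (2 * (s + 1) ^ (s + 1)) |
        p.1 < p.2 ∧ Tangent (f (e.symm p.1)) (f (e.symm p.2))} := by
      rintro _ ⟨⟨w, i⟩, -, rfl⟩
      refine ⟨hlt _ _, ?_⟩
      show Tangent (f (e.symm (e (Sum.inl w)))) (f (e.symm (e (Sum.inr (i, fun t => w (i.succAbove t))))))
      rw [e.symm_apply_apply, e.symm_apply_apply]
      exact ht w i
    have hcard : (Φ '' Set.univ).ncard = (s + 1) ^ (s + 1 + 1) := by
      rw [Set.ncard_image_of_injective _ hΦ, Set.ncard_univ, Nat.card_eq_fintype_card,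
        Fintype.card_prod, cA, Fintype.card_fin, ← pow_succ]
    rw [← hcard]
    exact Set.ncard_le_ncard hsub (Set.toFinite _)

/-- For `k = 4`, hence for every `k ≥ 4`, the number of tangencies among `n` pairwise intersecting,
`k`-intersecting bi-infinite `x`-monotone curves is not `O(n)`: for every `m ≥ 1` there are
`n = 2 m^m` such curves with at least `m^(m+1) = (m/2) n` tangencies, and for every real `C` there
is such a family with more than `C n` tangencies. -/
theorem result (k : ℕ) (hk : 4 ≤ k) :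
    (∀ m : ℕ, 1 ≤ m → ∃ f : Fin (2 * m ^ m) → ℝ → ℝ, Family k f ∧ m ^ (m + 1) ≤ tangencies f) ∧
    (∀ C : ℝ, ∃ (n : ℕ) (f : Fin n → ℝ → ℝ), Family k f ∧ C * n < tangencies f) := by
  have h1 : ∀ m : ℕ, 1 ≤ m →
      ∃ f : Fin (2 * m ^ m) → ℝ → ℝ, Family k f ∧ m ^ (m + 1) ≤ tangencies f := by
    intro m hm
    obtain ⟨f, hf, ht⟩ := main m hm
    exact ⟨f, ⟨hf.cont, hf.finite, hf.meet, fun i j hij => (hf.card_le i j hij).trans hk,
      hf.triple⟩, ht⟩
  refine ⟨h1, ?_⟩
  intro C
  obtain ⟨m, hm⟩ := exists_nat_gt (max (2 * C) 1)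
  have hm1 : (1 : ℝ) < m := lt_of_le_of_lt (le_max_right _ _) hm
  have hmC : 2 * C < m := lt_of_le_of_lt (le_max_left _ _) hm
  have hm1' : 1 ≤ m := by
    have : (1 : ℕ) < m := by exact_mod_cast hm1
    omega
  obtain ⟨f, hf, ht⟩ := h1 m hm1'
  refine ⟨2 * m ^ m, f, hf, ?_⟩
  have hpow : (0 : ℝ) < (m : ℝ) ^ m := pow_pos (by linarith) _
  calc C * ((2 * m ^ m : ℕ) : ℝ) = (2 * C) * (m : ℝ) ^ m := by push_cast; ring
    _ < m * (m : ℝ) ^ m := mul_lt_mul_of_pos_right hmC hpow
    _ = ((m ^ (m + 1) : ℕ) : ℝ) := by push_cast; ring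
    _ ≤ (tangencies f : ℝ) := by exact_mod_cast ht

end Pool.Agent.Results.MP_1a6bb7_co.SuperlinearTangencies
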